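import Pool.Agent.H952R2.Sextic.Parts

/-!
Potential density of rational points on double covers of `ℙⁿ`, `n ≥ 7`, branched along smooth
sextic hypersurfaces.
-/

set_option autoImplicit false

open MvPolynomial Pool.Agent.H952R2.SexticDefs

namespace Pool.Agent.Results.MP_b62148_ag.AllSmoothHighDim

/-- For `n ≥ 7`, every double cover `w² = F(x)` of `ℙⁿ` branched along a smooth sextic hypersurface
over a number field `k` is potentially dense: for some number field `L` containing `k` the
`L`-rational points are Zariski dense. -/
theorem result (k : Type) [Field k] [NumberField k] (n : ℕ) (hn : 7 ≤ n)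
    (F : MvPolynomial (Fin (n + 1)) k) (hF : IsSmoothSextic F) :
    ∃ (L : Type) (_ : Field L) (_ : NumberField L) (_ : Algebra k L),
      DensePoints (MvPolynomial.map (algebraMap k L) F) :=
  part2 k n hn F hF

end Pool.Agent.Results.MP_b62148_ag.AllSmoothHighDim
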