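import Mathlib
import Pool.Agent.H929R2.UniKDefs
import Pool.Agent.H929R2.Fam10

set_option autoImplicit false

namespace Pool.Agent.Results.MP_b62148_ag.ChainHypersurfaces

open MvPolynomial Pool.Agent.H929R2.UniK

universe u

/-- Let `K` be a field of characteristic zero (for instance `ℚ`), `L` an extension field of `K`
(for instance a number field), `d ≥ 3`, `m ≥ 0`, and let
`F = ∑_{j<d} a_j x_j^(d-1) x_{j+1} + ∑_{j<d} x_j H_j(y) + G(y)` with `x_d = y_0`, all `a_j ≠ 0`,
arbitrary forms `H_j` of degree `d - 1` and an arbitrary form `G` of degree `d` over `K` in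
`y_0, …, y_m`. Then the hypersurface `X = V(F)` of degree `d` in `ℙ^(d+m)` is irreducible over
`L` and `X(L)` is Zariski dense in `X`; and `X` is smooth if, for instance, all `H_j = 0` and both
`V(G) ⊂ ℙᵐ` and its hyperplane section `y_0 = 0` are smooth, in particular if
`G = ∑ c_i y_i^d`, `c_i ≠ 0`. -/
theorem result (K L : Type u) [Field K] [CharZero K] [Field L] [Algebra K L] (d m : ℕ)
    (hd : 3 ≤ d) (a : Fin d → K) (ha : ∀ j, a j ≠ 0) :
    (∀ (H : Fin d → MvPolynomial (Fin (m + 1)) K) (G : MvPolynomial (Fin (m + 1)) K),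
      (∀ j, (H j).IsHomogeneous (d - 1)) → G.IsHomogeneous d →
        Irreducible (MvPolynomial.map (algebraMap K L) (famForm d m a H G)) ∧
        HasDensePoints (MvPolynomial.map (algebraMap K L) (famForm d m a H G))) ∧
    (∀ G : MvPolynomial (Fin (m + 1)) K, G.IsHomogeneous d → IsSmooth G →
      (∀ (Ω : Type u) [Field Ω] [Algebra K Ω] (y : Fin (m + 1) → Ω), y 0 = 0 →
        (∀ i, i ≠ 0 → aeval y (pderiv i G) = 0) → y = 0) →
      IsSmooth (famForm d m a (fun _ => 0) G)) ∧
    (∀ c : Fin (m + 1) → K, (∀ i, c i ≠ 0) →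
      IsSmooth (famForm d m a (fun _ => 0) (∑ i, C (c i) * X i ^ d))) :=
  ⟨fun H G hH hG => ⟨(Pool.Agent.H929R2.famForm_dense (L := L) d m hd a ha H G hH hG).1.1,
      (Pool.Agent.H929R2.famForm_dense (L := L) d m hd a ha H G hH hG).2⟩,
    fun G hG h1 h2 => Pool.Agent.H929R2.famForm_smooth d m hd a ha G hG h1 h2,
    fun c hc => Pool.Agent.H929R2.famForm_smooth_fermat d m hd a ha c hc⟩

end Pool.Agent.Results.MP_b62148_ag.ChainHypersurfaces
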