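import Pool.Agent.H952R2.Sextic.Parts

/-!
Density of rational points on double covers of `ℙⁿ` branched along a smooth sextic hypersurface
which contains a suitable line; the diagonal sextics are examples.
-/

set_option autoImplicit false

open MvPolynomial Pool.Agent.H952R2.SexticDefs

namespace Pool.Agent.Results.MP_b62148_ag.SexticsWithLine

/-- If `L` is a number field and the smooth sextic `{F = 0}` in `ℙⁿ` has a good line over `L`, then
the `L`-rational points are Zariski dense in the double cover `w² = F(x)`. This applies to the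
diagonal sextics in `ℙⁿ`, `n = m + 3 ≥ 3`, whose first four coefficients satisfy
`c₀ + c₁ α⁶ = 0 = c₂ + c₃ β⁶` for some `α, β` in `L`. -/
theorem result :
    (∀ (L : Type) [Field L] [NumberField L] (n : ℕ) (F : MvPolynomial (Fin (n + 1)) L),
      IsSmoothSextic F → HasGoodLine F → DensePoints F) ∧
    (∀ (L : Type) [Field L] [NumberField L] (m : ℕ) (c : Fin (m + 3 + 1) → L),
      (∀ i, c i ≠ 0) → (∃ α β : L, c 0 + c 1 * α ^ 6 = 0 ∧ c 2 + c 3 * β ^ 6 = 0) →
        IsSmoothSextic (diag c) ∧ HasGoodLine (diag c) ∧ DensePoints (diag c)) := by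
  refine ⟨fun L _ _ n F hF hl => part1 L n F hF hl, fun L _ _ m c hc h => ?_⟩
  obtain ⟨α, β, h1, h2⟩ := h
  have hl := diag_line c hc α β h1 h2
  exact ⟨diag_smooth c hc, hl, part1 L (m + 3) _ (diag_smooth c hc) hl⟩

end Pool.Agent.Results.MP_b62148_ag.SexticsWithLine
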